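import Pool.Agent.N276.SD.Final
import Pool.Agent.N276.SD.NetBump
import Pool.Agent.N276.SD.Cells
import Pool.Agent.N276.SD.Menger2
import Pool.Agent.N276.SD.Quot
import Pool.Agent.N276.SD.PackIndep
import Pool.Agent.N276.SD.Rays
import Pool.Agent.N276.SD.Cross
import Pool.Agent.N276.SD.Cut
import Pool.Agent.N276.SD.Cost
import Pool.Agent.N276.SD.Pass
import Pool.Agent.N276.SD.Level
import Pool.Agent.N276.SD.Step
import Pool.Agent.N276.SD.Metric
import Pool.Agent.N276.SD.Prob
import Pool.Agent.N276.SD.Identity
import Pool.Agent.N276.SD.Entropy
import Pool.Agent.N276.SD.CS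
import Pool.Agent.N276.SD.Poinc
import Pool.Agent.N276.SD.Trace
import Pool.Agent.N276.SD.Asym
import Pool.Agent.N276.SD.BicMinor

/-!
# MP_2ce0dd_pr, Q1: simple random walk is strictly subdiffusive

Let `d > 2`. On every planar graph of uniform polynomial growth `n ^ d`, and for every root `o`, the
expected distance of simple random walk from `o` at time `t` is at most `K t ^ α` with `α < 1 / 2`.
The numbers `α` and `K` depend only on the constants `c`, `C`, `d` of the growth condition, and the
result holds for all graphs without a given finite graph `H` as a minor.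

The definitions are in `Pool.Agent.N276.SD.Def`.
-/

set_option autoImplicit false

namespace Pool.Agent.Results.MP_2ce0dd_pr.StrictlySubdiffusive

open Pool.Agent.N276.SD

/-- Planar graphs, and more generally graphs without a given finite graph `H` as a minor, of uniform
polynomial growth `n ^ d`, `d > 2`: simple random walk is strictly subdiffusive. -/
theorem result (c C d : ℝ) (hc : 0 < c) (hd : 2 < d) (W : Type) [Finite W] (H : SimpleGraph W) :
    ∃ α K : ℝ, α < 1 / 2 ∧ ∀ (V : Type) (G : SimpleGraph V) [G.LocallyFinite],
      Growth G c C d → (Planar G ∨ ¬ HasMinor G H) → ∀ (o : V) (t : ℕ), 1 ≤ t →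
        expDist G o t ≤ K * (t : ℝ) ^ α :=
  final
    (metric (level net bump
      (cut net cells (quot menger) pack (cross indep rays)) pass cost) step)
    probs (identity probs) (energy probs (entropy probs (identity probs)))
    (cs probs (entropy probs (identity probs))) (trace poinc) asym bic_minor
    c C d W H hc hd

end Pool.Agent.Results.MP_2ce0dd_pr.StrictlySubdiffusive
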